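import Pool.Agent.Q270.EY.Log
import Pool.Agent.Results.MP_67663b_nt.BeattyLiouville

/-!
# Liouville correlations along several Beatty sequences

The logarithmic averages of `λ(n) λ(⌊α_1 n⌋) ⋯ λ(⌊α_ℓ n⌋)` tend to zero for all positive irrational
`α_1, …, α_ℓ` that are linearly independent over `ℚ` when the number `ℓ + 1` of factors is odd. When it is
even the same holds unless `1` is a rational linear combination of the `α_i` in which every
coefficient is different from zero and some coefficient is negative.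

The case in which `1` is no rational combination of the `α_i` with all coefficients different from zero is the
theorem of the file `BeattyLiouville`; the other case is new.
-/

set_option autoImplicit false

namespace Pool.Agent.Results.MP_67663b_nt.AllButMixedSignsAtEvenOrder

open Finset Filter

/-- a common denominator -/
lemma common_den {ι : Type} [Fintype ι] (c : ι → ℚ) : ∃ (D : ℕ) (b : ι → ℤ), 0 < D ∧ ∀ i, (b i : ℚ) = D * c i := by
  classical
  refine ⟨∏ i, (c i).den, fun i => (c i).num * ∏ j ∈ univ.erase i, ((c j).den : ℤ), ?_, fun i => ?_⟩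
  · exact Finset.prod_pos fun i _ => (c i).den_pos
  · push_cast
    rw [← mul_prod_erase univ (fun j => ((c j).den : ℚ)) (mem_univ i)]
    have h := Rat.mul_den_eq_num (c i)
    rw [← h]
    ring

open Pool.Agent.Q270.EY Pool.Agent.Q270.EV in
/-- the case in which all coefficients of the relation are different from zero -/
theorem related (s : ℕ) (α : Fin (s + 1) → ℝ) (hirr : ∀ i, Irrational (α i)) (hpos : ∀ i, 0 < α i)
    (hlin : LinearIndependent ℚ α) (c : Fin (s + 1) → ℚ) (hc0 : ∀ i, c i ≠ 0) (hc : ∑ i, (c i : ℝ) * α i = 1)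
    (hmix : (∃ i, c i < 0) → Odd s) :
    Tendsto (fun N : ℕ => (1 / Real.log (N : ℝ)) * ∑ n ∈ Icc 1 N, (1 / (n : ℝ)) *
        ((-1 : ℝ) ^ ArithmeticFunction.cardFactors n *
          ∏ i : Fin (s + 1), (-1 : ℝ) ^ ArithmeticFunction.cardFactors (⌊α i * (n : ℝ)⌋.toNat)))
        atTop (nhds 0) := by
  classical
  obtain ⟨D, b, hD, hb⟩ := common_den c
  have hbr : ∀ i, (b i : ℝ) = D * c i := by
    intro i
    have := hb i
    exact_mod_cast congrArg (fun x : ℚ => (x : ℝ)) this
  have hDr : (0 : ℝ) < D := by exact_mod_cast hD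
  have hrel0 : (D : ℝ) = ∑ i, (b i : ℝ) * α i := by
    calc (D : ℝ) = D * ∑ i, (c i : ℝ) * α i := by rw [hc, mul_one]
      _ = _ := by
        rw [mul_sum]
        refine sum_congr rfl fun i _ => ?_
        rw [hbr]
        ring
  have hb0 : ∀ i, b i ≠ 0 := by
    intro i h
    have h1 := hbr i
    rw [h] at h1
    push_cast at h1
    have h2 : (c i : ℝ) = 0 := by
      rcases mul_eq_zero.1 h1.symm with h3 | h3
      · exact absurd h3 hDr.ne'
      · exact h3
    exact hc0 i (by exact_mod_cast h2)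
  -- independence
  have hli : ∀ g : Fin (s + 1) → ℚ, ∑ i, (g i : ℝ) * α i = 0 → ∀ i, g i = 0 := by
    intro g hg
    rw [Fintype.linearIndependent_iff] at hlin
    apply hlin g
    rw [← hg]
    apply sum_congr rfl
    intro i _
    rw [Rat.smul_def]
  have hInd : Ind (fun i : Fin s => α (Fin.castSucc i)) := by
    intro e d hed
    have h1 := hli (fun i => (Fin.lastCases (motive := fun _ => ℚ) 0 (fun j => (e j : ℚ)) i) - d * c i) (by
      have h2 : ∑ i, ((((Fin.lastCases (motive := fun _ => ℚ) 0 (fun j => (e j : ℚ)) i) - d * c i : ℚ)) : ℝ) * α i =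
          ∑ i, ((((Fin.lastCases (motive := fun _ => ℚ) 0 (fun j => (e j : ℚ)) i : ℚ)) : ℝ) * α i -
            d * ((c i : ℝ) * α i)) := by
        apply sum_congr rfl
        intro i _
        push_cast
        ring
      rw [h2, sum_sub_distrib, ← mul_sum, hc, Fin.sum_univ_castSucc]
      simp only [Fin.lastCases_castSucc, Fin.lastCases_last, Rat.cast_zero, zero_mul, add_zero, Rat.cast_intCast]
      rw [hed]
      ring)
    have hd : d = 0 := by
      have h2 := h1 (Fin.last s)
      simp only [Fin.lastCases_last, zero_sub, neg_eq_zero, mul_eq_zero] at h2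
      rcases h2 with h2 | h2
      · exact_mod_cast h2
      · exact absurd h2 (hc0 _)
    funext j
    have h2 := h1 (Fin.castSucc j)
    simp only [Fin.lastCases_castSucc, hd, Int.cast_zero, zero_mul, sub_zero] at h2
    exact_mod_cast h2
  -- the values of the form
  obtain ⟨V, hV⟩ : ∃ V : ℤ, V = ∑ i, |b i| := ⟨_, rfl⟩
  obtain ⟨Vs, hVs⟩ : ∃ Vs : Finset ℤ, Vs = (Icc (-V) V).filter (fun v => v ≠ 0 ∨ ∃ i, c i < 0) := ⟨_, rfl⟩
  have hform : ∀ n : ℕ, 1 ≤ n → D * n - ∑ i : Fin s, b (Fin.castSucc i) * ⌊α (Fin.castSucc i) * n⌋ -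
      b (Fin.last s) * ⌊α (Fin.last s) * n⌋ ∈ Vs := by
    intro n hn
    obtain ⟨v, hv⟩ : ∃ v : ℤ, v = D * n - ∑ i : Fin s, b (Fin.castSucc i) * ⌊α (Fin.castSucc i) * n⌋ -
      b (Fin.last s) * ⌊α (Fin.last s) * n⌋ := ⟨_, rfl⟩
    rw [← hv]
    have hv2 : (v : ℝ) = ∑ i, (b i : ℝ) * Int.fract (α i * n) := by
      have e1 : v = D * n - ∑ i : Fin (s + 1), b i * ⌊α i * n⌋ := by
        rw [hv, Fin.sum_univ_castSucc]
        ring
      rw [e1]
      push_cast
      rw [hrel0, sum_mul, ← sum_sub_distrib]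
      refine sum_congr rfl fun i _ => ?_
      rw [← Int.self_sub_floor]
      ring
    have hfr : ∀ i, 0 < Int.fract (α i * n) ∧ Int.fract (α i * n) < 1 := by
      intro i
      refine ⟨?_, Int.fract_lt_one _⟩
      refine lt_of_le_of_ne (Int.fract_nonneg _) fun h => ?_
      have h1 : Irrational (α i * n) := (hirr i).mul_natCast (by omega)
      rw [eq_comm, Int.fract_eq_iff] at h
      obtain ⟨_, _, z, hz⟩ := h
      rw [sub_zero] at hz
      exact h1.ne_int z hz
    rw [hVs, mem_filter, mem_Icc]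
    have habs : |(v : ℝ)| ≤ V := by
      rw [hv2, hV]
      push_cast
      refine (abs_sum_le_sum_abs _ _).trans (sum_le_sum fun i _ => ?_)
      rw [abs_mul, abs_of_nonneg (hfr i).1.le]
      exact mul_le_of_le_one_right (abs_nonneg _) (hfr i).2.le
    rw [abs_le] at habs
    refine ⟨⟨by exact_mod_cast habs.1, by exact_mod_cast habs.2⟩, ?_⟩
    by_cases hneg : ∃ i, c i < 0
    · exact Or.inr hneg
    · left
      push Not at hneg
      have h1 : (0 : ℝ) < v := by
        rw [hv2]
        refine sum_pos (fun i _ => ?_) ⟨Fin.last s, mem_univ _⟩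
        have h2 : (0 : ℝ) < c i := by
          exact_mod_cast lt_of_le_of_ne (hneg i) (hc0 i).symm
        rw [hbr]
        exact mul_pos (mul_pos hDr h2) (hfr i).1
      have h2 : 0 < v := by exact_mod_cast h1
      omega
  have h0 : 0 ∈ Vs → Odd s := by
    intro h
    rw [hVs, mem_filter] at h
    rcases h.2 with h1 | h1
    · exact absurd rfl h1
    · exact hmix h1
  refine log_tend (fun n => (-1 : ℝ) ^ ArithmeticFunction.cardFactors n *
          ∏ i : Fin (s + 1), (-1 : ℝ) ^ ArithmeticFunction.cardFactors (⌊α i * (n : ℝ)⌋.toNat)) ?_ ?_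
  · intro n
    rw [abs_mul, abs_prod]
    have h1 : ∀ k : ℕ, |(-1 : ℝ) ^ k| = 1 := fun k => by rw [abs_pow, abs_neg, abs_one, one_pow]
    simp only [h1, prod_const_one, mul_one, le_refl]
  · intro ε hε
    obtain ⟨X₀, hX₀⟩ := lines (fun i : Fin s => α (Fin.castSucc i)) hInd (fun i => hpos _)
      (fun i => b (Fin.castSucc i)) (b (Fin.last s)) (hb0 _) D (α (Fin.last s)) (hpos _) (hirr _)
      (by rw [hrel0, Fin.sum_univ_castSucc]) Vs hform h0 ε hε
    refine ⟨X₀, fun X hX => ?_⟩
    refine le_trans (le_of_eq ?_) (hX₀ X hX)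
    refine sum_congr rfl fun N _ => ?_
    congr 3
    refine sum_congr rfl fun n _ => ?_
    unfold Tl lam
    push_cast
    rw [Fin.prod_univ_castSucc]

/-- The theorem: Q1 for every odd number of factors, and for every even number of factors except when `1` is a
rational combination of the `α_i` with all coefficients different from zero and some of them negative. -/
theorem result :
    ∀ (ℓ : ℕ) (α : Fin ℓ → ℝ), 1 ≤ ℓ → (∀ i, Irrational (α i)) → (∀ i, 0 < α i) →
      LinearIndependent ℚ α →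
      (Even (ℓ + 1) → ¬ ∃ c : Fin ℓ → ℚ, (∀ i, c i ≠ 0) ∧ (∃ i, c i < 0) ∧ ∑ i, (c i : ℝ) * α i = 1) →
      Tendsto (fun N : ℕ => (1 / Real.log (N : ℝ)) * ∑ n ∈ Icc 1 N, (1 / (n : ℝ)) *
        ((-1 : ℝ) ^ ArithmeticFunction.cardFactors n *
          ∏ i : Fin ℓ, (-1 : ℝ) ^ ArithmeticFunction.cardFactors (⌊α i * (n : ℝ)⌋.toNat)))
        atTop (nhds 0) := by
  intro ℓ α hℓ hirr hpos hlin hmix
  by_cases hex : ∃ c : Fin ℓ → ℚ, (∀ i, c i ≠ 0) ∧ ∑ i, (c i : ℝ) * α i = 1
  · obtain ⟨c, hc0, hc⟩ := hex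
    obtain ⟨s, rfl⟩ : ∃ s, ℓ = s + 1 := ⟨ℓ - 1, by omega⟩
    refine related s α hirr hpos hlin c hc0 hc fun h => ?_
    by_contra hs
    rw [Nat.not_odd_iff_even] at hs
    refine hmix ?_ ⟨c, hc0, h, hc⟩
    obtain ⟨k, hk⟩ := hs
    exact ⟨k + 1, by omega⟩
  · exact BeattyLiouville.result ℓ α hℓ hirr hpos hlin hex

end Pool.Agent.Results.MP_67663b_nt.AllButMixedSignsAtEvenOrder
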